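import Pool.Agent.Helper22.LIL.Defs
import Pool.Agent.Helper53.OM.Mert
import Pool.Agent.Helper9.LIL.MU

/-!
# Block LIL-HR: the Hardy-Ramanujan inequality for products of primes `1 mod 4`

Proof: helper11.
-/

open MeasureTheory Filter Set
open scoped Real Topology

namespace Pool.Agent.Helper22.LIL

open Pool.Agent.Helper22.GC Pool.Agent.Helper53.OM

noncomputable section

/-- Elements of `Wk`. -/
theorem HR.mem_Wk {k : ℕ} {x : ℝ} (hx : 0 ≤ x) {n : ℕ} :
    n ∈ Wk k x ↔ 1 ≤ n ∧ (n : ℝ) ≤ x ∧ Squarefree n ∧ (∀ p, p.Prime → p ∣ n → p % 4 = 1) ∧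
      n.primeFactors.card = k := by
  classical
  simp only [Wk, Finset.mem_filter, Finset.mem_Icc, Nat.le_floor_iff hx]
  tauto

/-- Removing a prime factor. -/
theorem HR.div_mem {k : ℕ} {x : ℝ} (hx : 0 ≤ x) {n p : ℕ} (hn : n ∈ Wk (k + 1) x)
    (hp : p.Prime) (hpn : p ∣ n) : n / p ∈ Wk k (x / p) := by
  rw [HR.mem_Wk hx] at hn
  obtain ⟨h1, h2, h3, h4, h5⟩ := hn
  have hp0 : (0 : ℝ) < p := by exact_mod_cast hp.pos
  rw [HR.mem_Wk (div_nonneg hx hp0.le)]
  obtain ⟨m, rfl⟩ := hpn
  have hm0 : m ≠ 0 := by rintro rfl; simp at h1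
  rw [Nat.mul_div_cancel_left m hp.pos]
  have hcop : Nat.Coprime p m := by
    rw [Nat.squarefree_mul_iff] at h3
    exact h3.1
  refine ⟨Nat.one_le_iff_ne_zero.2 hm0, ?_, h3.squarefree_of_dvd (Dvd.intro_left p rfl),
    fun q hq hqm => h4 q hq (hqm.trans (Dvd.intro_left p rfl)), ?_⟩
  · rw [le_div_iff₀ hp0]
    push_cast at h2
    linarith
  · rw [hcop.primeFactors_mul, hp.primeFactors, Finset.card_union_of_disjoint] at h5
    · simp at h5
      omega
    · rw [Finset.disjoint_singleton_left, Nat.mem_primeFactors]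
      rintro ⟨-, hpm, -⟩
      exact hp.one_lt.ne' (Nat.Coprime.eq_one_of_dvd hcop hpm)

/-- The base case: primes. -/
theorem HR.base : ∀ x : ℝ, 1 < x →
    ((Wk 1 x).card : ℝ) ≤ (2 * Real.log 4 + 2) * x / Real.log x := by
  intro x hx
  have hx0 : 0 ≤ x := by linarith
  have hlog : 0 < Real.log x := Real.log_pos hx
  have h1 : (Wk 1 x).card ≤ Nat.primeCounting ⌊x⌋₊ := by
    rw [Nat.primeCounting, Nat.primeCounting', Nat.count_eq_card_filter_range]
    refine Finset.card_le_card fun n hn => ?_
    rw [HR.mem_Wk hx0] at hn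
    obtain ⟨h1, h2, h3, h4, h5⟩ := hn
    rw [Finset.card_eq_one] at h5
    obtain ⟨p, hp⟩ := h5
    have h6 := Nat.prod_primeFactors_of_squarefree h3
    rw [hp, Finset.prod_singleton] at h6
    have hpp : p.Prime := Nat.prime_of_mem_primeFactors (by rw [hp]; exact Finset.mem_singleton_self p)
    rw [Finset.mem_filter, Finset.mem_range, ← h6]
    refine ⟨?_, hpp⟩
    have : n ≤ ⌊x⌋₊ := Nat.le_floor h2
    rw [h6]
    omega
  have h2 := Chebyshev.pi_le_log4_mul_div hx
  have h3 : ((Wk 1 x).card : ℝ) ≤ (Nat.primeCounting ⌊x⌋₊ : ℝ) := by exact_mod_cast h1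
  refine (h3.trans h2).trans ?_
  have hs : Real.log √x = Real.log x / 2 := Real.log_sqrt hx0
  rw [hs]
  have hsq : √x * √x = x := Real.mul_self_sqrt hx0
  have hs0 : 0 < √x := Real.sqrt_pos.2 (by linarith)
  have h4 : Real.log x ≤ 2 * √x := by
    have := Real.log_le_sub_one_of_pos hs0
    rw [hs] at this
    linarith
  have h5 : √x ≤ 2 * x / Real.log x := by
    rw [le_div_iff₀ hlog]
    nlinarith
  have h6 : Real.log 4 * x / (Real.log x / 2) = 2 * Real.log 4 * x / Real.log x := by
    field_simp
  rw [h6]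
  have h7 : (2 * Real.log 4 + 2) * x / Real.log x =
      2 * Real.log 4 * x / Real.log x + 2 * x / Real.log x := by
    rw [← add_div]; ring
  rw [h7]
  linarith

/-- The counting step. -/
theorem HR.step (k : ℕ) {x : ℝ} (hx : 1 < x) :
    (k + 1) * (Wk (k + 2) x).card ≤ ∑ p ∈ P1 (√x), (Wk (k + 1) (x / p)).card := by
  classical
  have hx0 : 0 ≤ x := by linarith
  have hsq : √x * √x = x := Real.mul_self_sqrt hx0
  have h1 : ∀ n ∈ Wk (k + 2) x, k + 1 ≤ ((P1 (√x)).filter (fun p : ℕ => p ∣ n)).card := by
    intro n hn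
    rw [HR.mem_Wk hx0] at hn
    obtain ⟨g1, g2, g3, g4, g5⟩ := hn
    have hsub : n.primeFactors.filter (fun p : ℕ => (p : ℝ) ≤ √x) ⊆
        (P1 (√x)).filter (fun p : ℕ => p ∣ n) := by
      intro p hp
      rw [Finset.mem_filter, Nat.mem_primeFactors] at hp
      obtain ⟨⟨p1, p2, p3⟩, p4⟩ := hp
      rw [Finset.mem_filter, MT.mem_P1 (Real.sqrt_nonneg x)]
      exact ⟨⟨p4, p1, g4 p p1 p2⟩, p2⟩
    have hbig : (n.primeFactors.filter (fun p : ℕ => ¬ (p : ℝ) ≤ √x)).card ≤ 1 := by
      rw [Finset.card_le_one]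
      intro p hp q hq
      rw [Finset.mem_filter, Nat.mem_primeFactors] at hp hq
      obtain ⟨⟨p1, p2, p3⟩, p4⟩ := hp
      obtain ⟨⟨q1, q2, q3⟩, q4⟩ := hq
      by_contra hne
      have hcop : Nat.Coprime p q := (Nat.coprime_primes p1 q1).2 hne
      have hdvd : p * q ∣ n := hcop.mul_dvd_of_dvd_of_dvd p2 q2
      have hle : p * q ≤ n := Nat.le_of_dvd (by omega) hdvd
      have hle' : (p : ℝ) * q ≤ n := by exact_mod_cast hle
      push Not at p4 q4
      have : √x * √x < (p : ℝ) * q :=
        mul_lt_mul'' p4 q4 (Real.sqrt_nonneg x) (Real.sqrt_nonneg x)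
      rw [hsq] at this
      linarith
    have hsum := Finset.card_filter_add_card_filter_not (s := n.primeFactors)
      (fun p : ℕ => (p : ℝ) ≤ √x)
    have := Finset.card_le_card hsub
    omega
  calc (k + 1) * (Wk (k + 2) x).card = ∑ n ∈ Wk (k + 2) x, (k + 1) := by
        rw [Finset.sum_const, smul_eq_mul, mul_comm]
    _ ≤ ∑ n ∈ Wk (k + 2) x, ((P1 (√x)).filter (fun p : ℕ => p ∣ n)).card :=
        Finset.sum_le_sum h1
    _ = ∑ p ∈ P1 (√x), ((Wk (k + 2) x).filter (fun n => p ∣ n)).card := by
        simp only [Finset.card_filter]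
        rw [Finset.sum_comm]
    _ ≤ ∑ p ∈ P1 (√x), (Wk (k + 1) (x / p)).card := by
        refine Finset.sum_le_sum fun p hp => ?_
        rw [MT.mem_P1 (Real.sqrt_nonneg x)] at hp
        refine Finset.card_le_card_of_injOn (fun n => n / p) ?_ ?_
        · intro n hn
          rw [Finset.coe_filter] at hn
          exact HR.div_mem hx0 hn.1 hp.2.1 hn.2
        · intro a ha b hb hab
          rw [Finset.coe_filter] at ha hb
          have h1 := Nat.div_mul_cancel ha.2
          have h2 := Nat.div_mul_cancel hb.2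
          simp only at hab
          rw [← h1, ← h2, hab]

/-- HR from Mertens. -/
theorem HR.of_mertens (hM : ∃ C : ℝ, ∀ z : ℝ, 1 ≤ z →
      ∑ p ∈ P1 z, (1 : ℝ) / p ≤ 1 / 2 * Real.log (1 + Real.log z) + C) :
    ∃ A D : ℝ, 0 < A ∧ 0 < D ∧ ∀ (k : ℕ) (x : ℝ), 1 < x →
    ((Wk (k + 1) x).card : ℝ) ≤
      A * x / Real.log x * ((1 / 2 * Real.log (1 + Real.log x) + D) ^ k / k.factorial) := by
  obtain ⟨C₁, hC₁⟩ := hM
  obtain ⟨C₂, hC₂⟩ := mertens_log
  have hlog4 : 0 < Real.log 4 := Real.log_pos (by norm_num)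
  refine ⟨2 * Real.log 4 + 2, |C₁| + 1 + |C₂|, by positivity, by positivity, ?_⟩
  set A : ℝ := 2 * Real.log 4 + 2 with hA
  set D : ℝ := |C₁| + 1 + |C₂| with hD
  have hA0 : 0 < A := by positivity
  have hD0 : 0 < D := by positivity
  intro k
  induction k with
  | zero =>
    intro x hx
    simpa using HR.base x hx
  | succ k ih =>
    intro x hx
    have hx0 : 0 < x := by linarith
    have hL : 0 < Real.log x := Real.log_pos hx
    have hy0 : 0 < Real.log (1 + Real.log x) := Real.log_pos (by linarith)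
    set y : ℝ := 1 / 2 * Real.log (1 + Real.log x) + D with hy
    have hy1 : 0 < y := by positivity
    have hk0 : (0 : ℝ) < (k.factorial : ℝ) := by exact_mod_cast k.factorial_pos
    have hstep : ((k : ℝ) + 1) * ((Wk (k + 2) x).card : ℝ) ≤
        ∑ p ∈ P1 (√x), ((Wk (k + 1) (x / p)).card : ℝ) := by
      exact_mod_cast HR.step k hx
    have hs1 : 1 ≤ √x := Real.one_le_sqrt.2 hx.le
    have hlogs : Real.log √x = Real.log x / 2 := Real.log_sqrt hx0.le
    have hterm : ∀ p ∈ P1 (√x), ((Wk (k + 1) (x / p)).card : ℝ) ≤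
        (A * x / Real.log x * (y ^ k / k.factorial)) *
          ((1 : ℝ) / p + 2 / Real.log x * (Real.log p / p)) := by
      intro p hp
      rw [MT.mem_P1 (Real.sqrt_nonneg x)] at hp
      obtain ⟨p1, p2, p3⟩ := hp
      have hp1 : (1 : ℝ) < p := by exact_mod_cast p2.one_lt
      have hp0 : (0 : ℝ) < p := by linarith
      have hsx : 1 < √x := lt_of_lt_of_le hp1 p1
      have hxp : √x ≤ x / p := by
        rw [le_div_iff₀ hp0]
        calc √x * p ≤ √x * √x := by gcongr
          _ = x := Real.mul_self_sqrt hx0.le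
      have hxp1 : 1 < x / p := lt_of_lt_of_le hsx hxp
      have h1 := ih (x / p) hxp1
      have hlp : Real.log p ≤ Real.log x / 2 := by
        rw [← hlogs]; exact Real.log_le_log hp0 p1
      have hlp0 : 0 < Real.log p := Real.log_pos hp1
      have hlxp : Real.log (x / p) = Real.log x - Real.log p :=
        Real.log_div hx0.ne' hp0.ne'
      have hlxp0 : 0 < Real.log (x / p) := Real.log_pos hxp1
      have h2 : (1 / 2 * Real.log (1 + Real.log (x / p)) + D) ^ k ≤ y ^ k := by
        have h3 : Real.log (1 + Real.log (x / p)) ≤ Real.log (1 + Real.log x) := by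
          refine Real.log_le_log (by linarith) ?_
          rw [hlxp]; linarith
        have h4 : 0 ≤ Real.log (1 + Real.log (x / p)) := Real.log_nonneg (by linarith)
        refine pow_le_pow_left₀ (by positivity) ?_ k
        rw [hy]; linarith
      have h5 : 1 / Real.log (x / p) ≤ 1 / Real.log x * (1 + 2 * Real.log p / Real.log x) := by
        rw [hlxp] at hlxp0 ⊢
        rw [div_mul_eq_mul_div, one_mul, div_le_div_iff₀ hlxp0 hL, one_mul]
        have h6 : (1 + 2 * Real.log p / Real.log x) * (Real.log x - Real.log p) =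
            Real.log x + Real.log p * (1 - 2 * Real.log p / Real.log x) := by
          field_simp
          ring
        rw [h6]
        have h7 : 2 * Real.log p / Real.log x ≤ 1 := by
          rw [div_le_one hL]; linarith
        nlinarith
      calc ((Wk (k + 1) (x / p)).card : ℝ)
          ≤ A * (x / p) / Real.log (x / p) *
            ((1 / 2 * Real.log (1 + Real.log (x / p)) + D) ^ k / k.factorial) := h1
        _ ≤ A * (x / p) / Real.log (x / p) * (y ^ k / k.factorial) := by
            have : 0 ≤ A * (x / p) / Real.log (x / p) := by positivity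
            gcongr
        _ = A * x / p * (y ^ k / k.factorial) * (1 / Real.log (x / p)) := by ring
        _ ≤ A * x / p * (y ^ k / k.factorial) *
            (1 / Real.log x * (1 + 2 * Real.log p / Real.log x)) := by
            have : 0 ≤ A * x / p * (y ^ k / k.factorial) := by positivity
            gcongr
        _ = _ := by ring
    have hsum : ∑ p ∈ P1 (√x), ((1 : ℝ) / p + 2 / Real.log x * (Real.log p / p)) ≤ y := by
      rcases (P1 (√x)).eq_empty_or_nonempty with he | ⟨p, hp⟩
      · rw [he, Finset.sum_empty]; exact hy1.le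
      · rw [MT.mem_P1 (Real.sqrt_nonneg x)] at hp
        obtain ⟨p1, p2, p3⟩ := hp
        have hp5 : 5 ≤ p := by
          have := p2.two_le
          omega
        have hp5' : (5 : ℝ) ≤ p := by exact_mod_cast hp5
        have hx25 : 25 ≤ x := by
          have h1 : (5 : ℝ) ≤ √x := hp5'.trans p1
          have h2 : √x * √x = x := Real.mul_self_sqrt hx0.le
          nlinarith
        have hL2 : 2 ≤ Real.log x := by
          rw [Real.le_log_iff_exp_le hx0]
          have h1 : Real.exp 2 = Real.exp 1 * Real.exp 1 := by rw [← Real.exp_add]; norm_num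
          have h2 := Real.exp_one_lt_d9
          have h3 := Real.exp_pos 1
          rw [h1]
          nlinarith
        have h1 := hC₁ (√x) hs1
        have h2 := hC₂ (√x) hs1
        rw [hlogs] at h1 h2
        rw [Finset.sum_add_distrib, ← Finset.mul_sum]
        have h3 : Real.log (1 + Real.log x / 2) ≤ Real.log (1 + Real.log x) :=
          Real.log_le_log (by linarith) (by linarith)
        have h4 : 2 / Real.log x * ∑ p ∈ P1 (√x), Real.log p / p ≤ 1 + |C₂| := by
          calc 2 / Real.log x * ∑ p ∈ P1 (√x), Real.log p / p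
              ≤ 2 / Real.log x * (Real.log x / 2 + C₂) := by
                have : 0 ≤ 2 / Real.log x := by positivity
                gcongr
            _ = 1 + 2 / Real.log x * C₂ := by
                rw [mul_add]
                congr 1
                field_simp
            _ ≤ 1 + |C₂| := by
                have h5 : 2 / Real.log x ≤ 1 := by rw [div_le_one hL]; exact hL2
                have h6 : 2 / Real.log x * C₂ ≤ 2 / Real.log x * |C₂| := by
                  have : 0 ≤ 2 / Real.log x := by positivity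
                  have := le_abs_self C₂
                  gcongr
                have h7 := abs_nonneg C₂
                nlinarith
        have h8 := le_abs_self C₁
        rw [hy, hD]
        linarith
    have hfin : ((k : ℝ) + 1) * ((Wk (k + 2) x).card : ℝ) ≤
        A * x / Real.log x * (y ^ k / k.factorial) * y := by
      refine hstep.trans ((Finset.sum_le_sum hterm).trans ?_)
      rw [← Finset.mul_sum]
      have : 0 ≤ A * x / Real.log x * (y ^ k / k.factorial) := by positivity
      gcongr
    have hk1 : (0 : ℝ) < (k : ℝ) + 1 := by positivity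
    have hgoal : A * x / Real.log x * (y ^ (k + 1) / (k + 1).factorial) =
        (A * x / Real.log x * (y ^ k / k.factorial) * y) / ((k : ℝ) + 1) := by
      rw [Nat.factorial_succ, pow_succ]
      push_cast
      field_simp
    rw [hgoal, le_div_iff₀ hk1]
    linarith

/-- HR: the Hardy-Ramanujan inequality. -/
theorem hardy_ramanujan : ∃ A D : ℝ, 0 < A ∧ 0 < D ∧ ∀ (k : ℕ) (x : ℝ), 1 < x →
    ((Wk (k + 1) x).card : ℝ) ≤
      A * x / Real.log x * ((1 / 2 * Real.log (1 + Real.log x) + D) ^ k / k.factorial) :=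
  HR.of_mertens mertens_upper

end

end Pool.Agent.Helper22.LIL
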